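import Pool.Agent.H.MP_6bdc24_co.Defs

namespace Pool.Agent.H.MP_6bdc24_co

open Set

abbrev GV : Type := Fin 5 × Fin 5
abbrev GE : Type := Fin 5 × Fin 5 × Bool
abbrev VV (n : ℕ) : Type := GV ⊕ Fin n
abbrev EE (n : ℕ) : Type := GE ⊕ (Fin n × Fin 3)

def gs (e : GE) : GV := (e.1, e.2.1)
def gt (e : GE) : GV := if e.2.2 then (e.1 + 1, e.2.1) else (e.1, e.2.1 + 1)

def cv (n : ℕ) (m : Fin (n + 1)) : VV n := Fin.cases (Sum.inl (0, 0)) Sum.inr m

def src (n : ℕ) : EE n → VV n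
  | Sum.inl e => Sum.inl (gs e)
  | Sum.inr p => cv n p.1.castSucc

def tgt (n : ℕ) : EE n → VV n
  | Sum.inl e => Sum.inl (gt e)
  | Sum.inr p => Sum.inr p.1

theorem three_le {α : Type} {F : Set α} (hF : F.encard ≤ 2) {a b c : α} (ha : a ∈ F) (hb : b ∈ F)
    (hc : c ∈ F) (hab : a ≠ b) (hac : a ≠ c) (hbc : b ≠ c) : False := by
  have h3 : ({a, b, c} : Set α).encard = 3 := encard_eq_three.2 ⟨a, b, c, hab, hac, hbc, rfl⟩
  have hs : ({a, b, c} : Set α) ⊆ F := by
    intro x hx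
    rcases hx with rfl | rfl | rfl <;> assumption
  have := (encard_le_encard hs).trans hF
  rw [h3] at this
  exact absurd this (by decide)

/-- first detour -/
def p2 (e : GE) : Fin 3 → GE :=
  if e.2.2 then ![(e.1, e.2.1, false), (e.1, e.2.1 + 1, true), (e.1 + 1, e.2.1, false)]
  else ![(e.1, e.2.1, true), (e.1 + 1, e.2.1, false), (e.1, e.2.1 + 1, true)]

/-- second detour -/
def p3 (e : GE) : Fin 3 → GE :=
  if e.2.2 then ![(e.1, e.2.1 - 1, false), (e.1, e.2.1 - 1, true), (e.1 + 1, e.2.1 - 1, false)]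
  else ![(e.1 - 1, e.2.1, true), (e.1 - 1, e.2.1, false), (e.1 - 1, e.2.1 + 1, true)]

theorem p_facts : ∀ e : GE, (∀ a, e ≠ p2 e a) ∧ (∀ a, e ≠ p3 e a) ∧ (∀ a b, p2 e a ≠ p3 e b) ∧
    gs (p2 e 0) = gs e ∧ gt (p2 e 0) = gs (p2 e 1) ∧ gt (p2 e 1) = gt (p2 e 2) ∧
    gs (p2 e 2) = gt e ∧
    gt (p3 e 0) = gs e ∧ gs (p3 e 0) = gs (p3 e 1) ∧ gt (p3 e 1) = gs (p3 e 2) ∧
    gt (p3 e 2) = gt e := by
  decide +kernel

theorem threeEC (n : ℕ) : ThreeEdgeConnected (src n) (tgt n) := by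
  refine ⟨⟨Sum.inl (0, 0), Sum.inl (0, 1), by simp⟩, fun F hF => ?_⟩
  set R : VV n → VV n → Prop := Relation.EqvGen
    (fun x y => x ∈ (univ : Set (VV n)) ∧ y ∈ (univ : Set (VV n)) ∧
      ∃ e, e ∉ F ∧ src n e = x ∧ tgt n e = y) with hR
  have hE : Equivalence R := Relation.EqvGen.is_equivalence _
  have base : ∀ e, e ∉ F → R (src n e) (tgt n e) := fun e he =>
    Relation.EqvGen.rel _ _ ⟨mem_univ _, mem_univ _, e, he, rfl, rfl⟩
  have baseg : ∀ e : GE, Sum.inl e ∉ F → R (Sum.inl (gs e)) (Sum.inl (gt e)) := fun e he =>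
    base (Sum.inl e) he
  have hg : ∀ e : GE, R (Sum.inl (gs e)) (Sum.inl (gt e)) := by
    intro e
    obtain ⟨h1, h2, h3, a1, a2, a3, a4, b1, b2, b3, b4⟩ := p_facts e
    by_cases c1 : Sum.inl e ∈ F
    · by_cases c2 : ∃ a, Sum.inl (p2 e a) ∈ F
      · by_cases c3 : ∃ a, Sum.inl (p3 e a) ∈ F
        · obtain ⟨a, ha⟩ := c2
          obtain ⟨b, hb⟩ := c3
          exact (three_le hF c1 ha hb (fun h => h1 a (Sum.inl.inj h))
            (fun h => h2 b (Sum.inl.inj h)) (fun h => h3 a b (Sum.inl.inj h))).elim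
        · push Not at c3
          have r0 := baseg _ (c3 0)
          have r1 := baseg _ (c3 1)
          have r2 := baseg _ (c3 2)
          rw [b1, b2] at r0
          rw [b3] at r1
          rw [b4] at r2
          exact hE.trans (hE.symm r0) (hE.trans r1 r2)
      · push Not at c2
        have r0 := baseg _ (c2 0)
        have r1 := baseg _ (c2 1)
        have r2 := baseg _ (c2 2)
        rw [a1, a2] at r0
        rw [a3] at r1
        rw [a4] at r2
        exact hE.trans r0 (hE.trans r1 (hE.symm r2))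
    · exact baseg e c1
  have hc : ∀ k : Fin n, R (cv n k.castSucc) (Sum.inr k) := by
    intro k
    by_cases c0 : Sum.inr (k, (0 : Fin 3)) ∈ F
    · by_cases c1 : Sum.inr (k, (1 : Fin 3)) ∈ F
      · by_cases c2 : Sum.inr (k, (2 : Fin 3)) ∈ F
        · exact (three_le hF c0 c1 c2 (by simp) (by simp) (by simp)).elim
        · exact base _ c2
      · exact base _ c1
    · exact base _ c0
  have hrow : ∀ i : Fin 5, R (Sum.inl (0, 0)) (Sum.inl (i, 0)) := by
    intro i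
    induction i using Fin.induction with
    | zero => exact hE.refl _
    | succ i ih =>
      have := hg (i.castSucc, 0, true)
      simp only [gs, gt, if_true, Fin.coeSucc_eq_succ] at this
      exact hE.trans ih this
  have hgrid : ∀ i j : Fin 5, R (Sum.inl (0, 0)) (Sum.inl (i, j)) := by
    intro i j
    induction j using Fin.induction with
    | zero => exact hrow i
    | succ j ih =>
      have := hg (i, j.castSucc, false)
      simp only [gs, gt, Bool.false_eq_true, if_false, Fin.coeSucc_eq_succ] at this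
      exact hE.trans ih this
  have hch : ∀ m : Fin (n + 1), R (Sum.inl (0, 0)) (cv n m) := by
    intro m
    induction m using Fin.induction with
    | zero => exact hE.refl _
    | succ m ih => exact hE.trans ih (hc m)
  have hall : ∀ x : VV n, R (Sum.inl (0, 0)) x := by
    rintro (⟨i, j⟩ | k)
    · exact hgrid i j
    · exact hch k.succ
  intro a _ b _
  exact hE.trans (hE.symm (hall a)) (hall b)

/-- branch set labels of the `K₃,₃` minor -/
def lab (x : GV) : Option (Fin 3 ⊕ Fin 3) :=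
  ![![some (.inl 0), some (.inl 2), some (.inl 0), some (.inl 0), some (.inl 0)],
    ![some (.inr 0), some (.inl 2), some (.inr 1), none, none],
    ![some (.inl 1), some (.inl 1), some (.inl 1), none, none],
    ![none, none, some (.inr 2), none, none],
    ![none, some (.inl 2), some (.inr 2), none, none]] x.1 x.2

def dep (x : GV) : ℕ :=
  ![![3, 1, 0, 1, 2], ![0, 0, 0, 0, 0], ![0, 1, 2, 0, 0], ![0, 0, 0, 0, 0], ![0, 2, 1, 0, 0]]
    x.1 x.2

def root : Fin 3 ⊕ Fin 3 → GV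
  | .inl a => ![(0, 2), (2, 0), (1, 1)] a
  | .inr a => ![(1, 0), (1, 2), (3, 2)] a

theorem lab_root : ∀ w, lab (root w) = some w := by decide +kernel

theorem lab_par : ∀ (x : GV) (w), lab x = some w → x = root w ∨ ∃ e : GE,
    (gs e = x ∧ lab (gt e) = some w ∧ dep (gt e) < dep x) ∨
    (gt e = x ∧ lab (gs e) = some w ∧ dep (gs e) < dep x) := by decide +kernel

theorem lab_adj : ∀ a b : Fin 3, ∃ e : GE,
    (lab (gs e) = some (.inl a) ∧ lab (gt e) = some (.inr b)) ∨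
    (lab (gs e) = some (.inr b) ∧ lab (gt e) = some (.inl a)) := by decide +kernel

theorem nonplanar (n : ℕ) : Nonplanar (src n) (tgt n) := by
  right
  refine ⟨fun w => {v | ∃ x, v = Sum.inl x ∧ lab x = some w}, fun w => ⟨⟨_, root w, rfl, lab_root w⟩, ?_⟩, ?_, ?_⟩
  · set S : Set (VV n) := {v | ∃ x, v = Sum.inl x ∧ lab x = some w} with hS
    set R : VV n → VV n → Prop := Relation.EqvGen
      (fun x y => x ∈ S ∧ y ∈ S ∧ ∃ e, e ∉ (∅ : Set (EE n)) ∧ src n e = x ∧ tgt n e = y) with hR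
    have hE : Equivalence R := Relation.EqvGen.is_equivalence _
    have key : ∀ (d : ℕ) (x : GV), dep x = d → lab x = some w →
        R (Sum.inl x) (Sum.inl (root w)) := by
      intro d
      induction d using Nat.strong_induction_on with
      | _ d ih =>
        intro x hd hx
        rcases lab_par x w hx with rfl | ⟨e, ⟨h1, h2, h3⟩ | ⟨h1, h2, h3⟩⟩
        · exact hE.refl _
        · refine hE.trans ?_ (ih _ (hd ▸ h3) (gt e) rfl h2)
          exact Relation.EqvGen.rel _ _ ⟨⟨x, rfl, hx⟩, ⟨_, rfl, h2⟩, Sum.inl e, notMem_empty _,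
            by rw [← h1]; rfl, rfl⟩
        · refine hE.trans (hE.symm ?_) (ih _ (hd ▸ h3) (gs e) rfl h2)
          exact Relation.EqvGen.rel _ _ ⟨⟨_, rfl, h2⟩, ⟨x, rfl, hx⟩, Sum.inl e, notMem_empty _,
            rfl, by rw [← h1]; rfl⟩
    rintro a ⟨x, rfl, hx⟩ b ⟨y, rfl, hy⟩
    exact hE.trans (key _ x rfl hx) (hE.symm (key _ y rfl hy))
  · intro w w' hw
    rw [Set.disjoint_left]
    rintro v ⟨x, rfl, hx⟩ ⟨y, hxy, hy⟩
    obtain rfl := Sum.inl.inj hxy
    exact hw (Option.some.inj (hx.symm.trans hy))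
  · rintro (a | a) (b | b) hab
    · simp at hab
    · obtain ⟨e, ⟨h1, h2⟩ | ⟨h1, h2⟩⟩ := lab_adj a b
      · exact ⟨Sum.inl e, Or.inl ⟨⟨_, rfl, h1⟩, ⟨_, rfl, h2⟩⟩⟩
      · exact ⟨Sum.inl e, Or.inr ⟨⟨_, rfl, h1⟩, ⟨_, rfl, h2⟩⟩⟩
    · obtain ⟨e, ⟨h1, h2⟩ | ⟨h1, h2⟩⟩ := lab_adj b a
      · exact ⟨Sum.inl e, Or.inr ⟨⟨_, rfl, h1⟩, ⟨_, rfl, h2⟩⟩⟩
      · exact ⟨Sum.inl e, Or.inl ⟨⟨_, rfl, h1⟩, ⟨_, rfl, h2⟩⟩⟩
    · simp at hab

theorem no_chain (n : ℕ) (C : Set (EE n)) (hC : Peripheral (src n) (tgt n) C)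
    (p : Fin n × Fin 3) : Sum.inr p ∉ C := by
  intro hp
  obtain ⟨⟨k, v, e, hv, he, hCe, hends⟩, hind, -⟩ := hC
  have hall : ∀ r : Fin 3, ∃ i, e i = Sum.inr (p.1, r) := by
    intro r
    have : Sum.inr (p.1, r) ∈ C :=
      hind _ ⟨_, hp, Or.inl rfl⟩ ⟨_, hp, Or.inr rfl⟩
    rw [hCe] at this
    exact this
  choose f hf using hall
  have hv' : ∀ r, v (f r) = cv n p.1.castSucc ∨ v (f r) = Sum.inr p.1 := by
    intro r
    rcases hends (f r) with ⟨h, -⟩ | ⟨-, h⟩
    · left; rw [← h, hf]; rfl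
    · right; rw [← h, hf]; rfl
  have hne : ∀ r r', v (f r) = v (f r') → r = r' := by
    intro r r' h
    have h1 := hf r
    rw [hv h, hf r'] at h1
    exact (congrArg Prod.snd (Sum.inr.inj h1)).symm
  rcases hv' 0 with h0 | h0 <;> rcases hv' 1 with h1 | h1 <;> rcases hv' 2 with h2 | h2 <;>
    first
      | exact absurd (hne 0 1 (h0.trans h1.symm)) (by decide)
      | exact absurd (hne 0 2 (h0.trans h2.symm)) (by decide)
      | exact absurd (hne 1 2 (h1.trans h2.symm)) (by decide)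

theorem count_le (n : ℕ) :
    {C : Set (EE n) | Peripheral (src n) (tgt n) C}.ncard ≤ Nat.card (Set GE) := by
  rw [← Set.ncard_univ]
  refine Set.ncard_le_ncard_of_injOn (fun C => Sum.inl ⁻¹' C) (fun _ _ => mem_univ _) ?_
  intro C hC D hD h
  ext (e | p)
  · exact Set.ext_iff.1 h e
  · exact ⟨fun h' => (no_chain n C hC p h').elim, fun h' => (no_chain n D hD p h').elim⟩

end Pool.Agent.H.MP_6bdc24_co
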