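import Mathlib

/-!
Finite multigraphs given by an edge type `E`, a vertex type `V` and the two end maps
`src tgt : E → V` (the orientation plays no role; loops and parallel edges are allowed).
-/

namespace Pool.Agent.H.MP_6bdc24_co

open Set

variable {V E : Type}

/-- The subgraph with vertex set `S` and all edges outside `F` having both ends in `S` is
connected: any two vertices of `S` are joined by a walk in it. -/
def Conn (src tgt : E → V) (S : Set V) (F : Set E) : Prop :=
  ∀ a ∈ S, ∀ b ∈ S,
    Relation.EqvGen (fun x y => x ∈ S ∧ y ∈ S ∧ ∃ e, e ∉ F ∧ src e = x ∧ tgt e = y) a b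

/-- 3-edge-connected: at least two vertices, and connected after deleting any set of at most
two edges. -/
def ThreeEdgeConnected (src tgt : E → V) : Prop :=
  Nontrivial V ∧ ∀ F : Set E, F.encard ≤ 2 → Conn src tgt univ F

/-- `H` is a minor: disjoint nonempty connected branch sets, with an edge between the branch
sets of any two adjacent vertices of `H`. -/
def HasMinor (src tgt : E → V) {W : Type} (H : SimpleGraph W) : Prop :=
  ∃ β : W → Set V, (∀ w, (β w).Nonempty ∧ Conn src tgt (β w) ∅) ∧
    (∀ w w', w ≠ w' → Disjoint (β w) (β w')) ∧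
    ∀ w w', H.Adj w w' →
      ∃ e, (src e ∈ β w ∧ tgt e ∈ β w') ∨ (src e ∈ β w' ∧ tgt e ∈ β w)

/-- Nonplanar, in the form of Wagner's theorem: a `K₅` minor or a `K₃,₃` minor. -/
def Nonplanar (src tgt : E → V) : Prop :=
  HasMinor src tgt (⊤ : SimpleGraph (Fin 5)) ∨
    HasMinor src tgt (completeBipartiteGraph (Fin 3) (Fin 3))

/-- `C` is the edge set of a cycle (length one: a loop; length two: two parallel edges). -/
def IsCycle (src tgt : E → V) (C : Set E) : Prop :=
  ∃ (k : ℕ) (v : Fin (k + 1) → V) (e : Fin (k + 1) → E),
    Function.Injective v ∧ Function.Injective e ∧ C = range e ∧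
    ∀ i, (src (e i) = v i ∧ tgt (e i) = v (i + 1)) ∨ (src (e i) = v (i + 1) ∧ tgt (e i) = v i)

/-- The vertices of an edge set. -/
def verts (src tgt : E → V) (C : Set E) : Set V := {x | ∃ e ∈ C, src e = x ∨ tgt e = x}

/-- A peripheral cycle: induced, with `G - V(C)` connected. -/
def Peripheral (src tgt : E → V) (C : Set E) : Prop :=
  IsCycle src tgt C ∧
    (∀ e, src e ∈ verts src tgt C → tgt e ∈ verts src tgt C → e ∈ C) ∧
    Conn src tgt (verts src tgt C)ᶜ ∅

/-- An embedding of the graph in the space `X`: distinct points for the vertices, and for each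
edge an arc between its ends, whose interior is injectively parametrised and avoids the vertices
and the interiors of the other arcs. -/
structure Drawing (src tgt : E → V) (X : Type) [TopologicalSpace X] where
  pt : V → X
  arc : ∀ e, Path (pt (src e)) (pt (tgt e))
  pt_inj : Function.Injective pt
  arc_inj : ∀ e e' (s t : unitInterval), 0 < s → s < 1 → 0 < t → t < 1 →
    arc e s = arc e' t → e = e' ∧ s = t
  arc_pt : ∀ e x (s : unitInterval), 0 < s → s < 1 → arc e s ≠ pt x

/-- The point set of the embedded graph. -/
def Drawing.points {src tgt : E → V} {X : Type} [TopologicalSpace X] (D : Drawing src tgt X) :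
    Set X := range D.pt ∪ ⋃ e, range (D.arc e)

/-- Representativity at least `k`: every simple closed curve that is not homotopic to the
constant loop meets the embedded graph in at least `k` points. -/
def Drawing.RepAtLeast {src tgt : E → V} {X : Type} [TopologicalSpace X]
    (D : Drawing src tgt X) (k : ℕ) : Prop :=
  ∀ (x : X) (γ : Path x x), (∀ s t : unitInterval, s < 1 → t < 1 → γ s = γ t → s = t) →
    ¬ γ.Homotopic (Path.refl x) → (k : ℕ∞) ≤ (range γ ∩ D.points).encard

/-- The torus `ℝ²/(5ℤ)²`. -/
abbrev Torus : Type := AddCircle (5 : ℝ) × AddCircle (5 : ℝ)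

end Pool.Agent.H.MP_6bdc24_co
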