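import Pool.Agent.H.MP_6bdc24_co.Defs

namespace Pool.Agent.H.MP_6bdc24_co

open Set

instance f5 : Fact ((0 : ℝ) < 5) := ⟨by norm_num⟩

theorem lift_ex (g : C(unitInterval, AddCircle (5 : ℝ))) :
    ∃ Γ : C(unitInterval, ℝ), ∀ t, ((Γ t : ℝ) : AddCircle (5 : ℝ)) = g t := by
  obtain ⟨b, -, hb⟩ := AddCircle.eq_coe_Ico (g 0)
  obtain ⟨Γ, h, -⟩ := (AddCircle.isCoveringMap_coe (5 : ℝ)).exists_path_lifts g b hb.symm
  exact ⟨Γ, fun t => congrFun h t⟩

theorem surj_of_ne (Γ : C(unitInterval, ℝ))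
    (h : ((Γ 1 : ℝ) : AddCircle (5 : ℝ)) = ((Γ 0 : ℝ) : AddCircle (5 : ℝ))) (hne : Γ 1 ≠ Γ 0)
    (y : AddCircle (5 : ℝ)) : ∃ t, ((Γ t : ℝ) : AddCircle (5 : ℝ)) = y := by
  have h0 : ((Γ 1 - Γ 0 : ℝ) : AddCircle (5 : ℝ)) = 0 := by
    rw [AddCircle.coe_sub, h, sub_self]
  obtain ⟨z, hz⟩ := (AddCircle.coe_eq_zero_iff _).1 h0
  rw [zsmul_eq_mul] at hz
  have hz0 : z ≠ 0 := by
    rintro rfl
    apply hne
    simp at hz
    linarith
  have key : ∀ a b : unitInterval, Γ a + 5 ≤ Γ b → ∃ t, ((Γ t : ℝ) : AddCircle (5 : ℝ)) = y := by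
    intro a b hab
    have hs := (AddCircle.equivIco (5 : ℝ) (Γ a) y).2
    have : ((AddCircle.equivIco (5 : ℝ) (Γ a) y : ℝ)) ∈ Icc (Γ a) (Γ b) :=
      ⟨hs.1, hs.2.le.trans hab⟩
    obtain ⟨t, ht⟩ := intermediate_value_univ a b Γ.continuous this
    exact ⟨t, by rw [ht]; exact AddCircle.coe_equivIco⟩
  rcases lt_or_gt_of_ne hz0 with hl | hl
  · have : (z : ℝ) ≤ -1 := by exact_mod_cast (show z ≤ -1 by omega)
    exact key 1 0 (by linarith)
  · have : (1 : ℝ) ≤ z := by exact_mod_cast (show 1 ≤ z by omega)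
    exact key 0 1 (by linarith)

/-- the covering projection -/
noncomputable def proj (p : ℝ × ℝ) : Torus := ((p.1 : AddCircle (5 : ℝ)), (p.2 : AddCircle (5 : ℝ)))

theorem proj_cont : Continuous proj :=
  ((AddCircle.continuous_mk' (5 : ℝ)).comp continuous_fst).prodMk
    ((AddCircle.continuous_mk' (5 : ℝ)).comp continuous_snd)

theorem loop_cases (x : Torus) (γ : Path x x) (h : ¬ γ.Homotopic (Path.refl x)) :
    (∀ y, ∃ t, (γ t).1 = y) ∨ (∀ y, ∃ t, (γ t).2 = y) := by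
  obtain ⟨A, hA⟩ := lift_ex ⟨fun t => (γ t).1, by fun_prop⟩
  obtain ⟨B, hB⟩ := lift_ex ⟨fun t => (γ t).2, by fun_prop⟩
  simp only [ContinuousMap.coe_mk] at hA hB
  by_cases h1 : A 1 = A 0
  · by_cases h2 : B 1 = B 0
    · exfalso
      apply h
      have hx : x = proj (A 0, B 0) := by
        apply Prod.ext
        · simp [proj, hA]
        · simp [proj, hB]
      subst hx
      let δ : Path (A 0, B 0) (A 0, B 0) :=
        ⟨⟨fun t => (A t, B t), by fun_prop⟩, rfl, by simp [h1, h2]⟩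
      have hδ := (SimplyConnectedSpace.paths_homotopic δ (Path.refl _)).map ⟨proj, proj_cont⟩
      have e1 : γ = δ.map proj_cont := by
        ext t
        · exact (hA t).symm
        · exact (hB t).symm
      have e2 : Path.refl (proj (A 0, B 0)) = (Path.refl (A 0, B 0)).map proj_cont := by
        ext t <;> rfl
      rw [e1, e2]
      exact hδ
    · right
      intro y
      obtain ⟨t, ht⟩ := surj_of_ne B (by simp [hB]) h2 y
      exact ⟨t, (hB t).symm.trans ht⟩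
  · left
    intro y
    obtain ⟨t, ht⟩ := surj_of_ne A (by simp [hA]) h1 y
    exact ⟨t, (hA t).symm.trans ht⟩

theorem proj_inj {p q : ℝ × ℝ} (hp : p.1 ∈ Ico (0 : ℝ) 5 ∧ p.2 ∈ Ico (0 : ℝ) 5)
    (hq : q.1 ∈ Ico (0 : ℝ) 5 ∧ q.2 ∈ Ico (0 : ℝ) 5) (h : proj p = proj q) : p = q := by
  have h1 : (p.1 : AddCircle (5 : ℝ)) = q.1 := congrArg Prod.fst h
  have h2 : (p.2 : AddCircle (5 : ℝ)) = q.2 := congrArg Prod.snd h
  apply Prod.ext
  · exact (AddCircle.coe_eq_coe_iff_of_mem_Ico (a := 0) (by simpa using hp.1)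
      (by simpa using hq.1)).1 h1
  · exact (AddCircle.coe_eq_coe_iff_of_mem_Ico (a := 0) (by simpa using hp.2)
      (by simpa using hq.2)).1 h2

theorem nat_frac {i j : ℕ} {s t : ℝ} (hs0 : 0 ≤ s) (hs1 : s < 1) (ht0 : 0 ≤ t) (ht1 : t < 1)
    (h : (i : ℝ) + s = j + t) : i = j ∧ s = t := by
  have h1 : i < j + 1 := by exact_mod_cast (show (i : ℝ) < j + 1 by linarith)
  have h2 : j < i + 1 := by exact_mod_cast (show (j : ℝ) < i + 1 by linarith)
  have : i = j := by omega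
  subst this
  exact ⟨rfl, by linarith⟩

theorem succ_coe (i : Fin 5) :
    ((((i : ℕ) : ℝ) + 1 : ℝ) : AddCircle (5 : ℝ)) =
      (((((i + 1 : Fin 5) : ℕ) : ℝ) : ℝ) : AddCircle (5 : ℝ)) := by
  have : ((i + 1 : Fin 5) : ℕ) = (i : ℕ) + 1 ∨ ((i : ℕ) = 4 ∧ ((i + 1 : Fin 5) : ℕ) = 0) := by
    revert i; decide
  rcases this with h | ⟨h1, h2⟩
  · rw [h]; push_cast; rfl
  · rw [h1, h2]
    have : (((4 : ℕ) : ℝ) + 1) = 5 := by norm_num
    rw [this, AddCircle.coe_period]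
    simp

end Pool.Agent.H.MP_6bdc24_co
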