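import Pool.Agent.H.MP_6bdc24_co.Comb
import Pool.Agent.H.MP_6bdc24_co.Loop

namespace Pool.Agent.H.MP_6bdc24_co

open Set

noncomputable def hh (n : ℕ) : ℝ := 1 / ((n : ℝ) + 1)

theorem hh_pos (n : ℕ) : 0 < hh n := by unfold hh; positivity

theorem hh_mul (n : ℕ) : ((n : ℝ) + 1) * hh n = 1 := by unfold hh; field_simp

noncomputable def P (n : ℕ) : VV n → ℝ × ℝ
  | Sum.inl x => (((x.1 : ℕ) : ℝ), ((x.2 : ℕ) : ℝ))
  | Sum.inr k => ((((k : ℕ) : ℝ) + 1) * hh n, (((k : ℕ) : ℝ) + 1) * hh n)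

noncomputable def A (n : ℕ) : EE n → ℝ → ℝ × ℝ
  | Sum.inl (i, j, true) => fun t => (((i : ℕ) : ℝ) + t, ((j : ℕ) : ℝ))
  | Sum.inl (i, j, false) => fun t => (((i : ℕ) : ℝ), ((j : ℕ) : ℝ) + t)
  | Sum.inr (k, r) => fun t =>
      ((((k : ℕ) : ℝ) + t) * hh n + (((r : ℕ) : ℝ) - 1) * (t * (1 - t)) * hh n / 2,
       (((k : ℕ) : ℝ) + t) * hh n - (((r : ℕ) : ℝ) - 1) * (t * (1 - t)) * hh n / 2)

theorem A_cont (n : ℕ) (e : EE n) : Continuous (A n e) := by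
  rcases e with ⟨i, j, _ | _⟩ | ⟨k, r⟩ <;> simp only [A] <;> fun_prop

theorem P_cv (n : ℕ) (m : Fin (n + 1)) :
    P n (cv n m) = (((m : ℕ) : ℝ) * hh n, ((m : ℕ) : ℝ) * hh n) := by
  induction m using Fin.cases with
  | zero => simp [cv, P]
  | succ m => simp [cv, P]

theorem A_zero (n : ℕ) (e : EE n) : proj (A n e 0) = proj (P n (src n e)) := by
  rcases e with ⟨i, j, _ | _⟩ | ⟨k, r⟩
  · simp [A, P, src, gs]
  · simp [A, P, src, gs]
  · simp [A, src, P_cv]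

theorem A_one (n : ℕ) (e : EE n) : proj (A n e 1) = proj (P n (tgt n e)) := by
  rcases e with ⟨i, j, _ | _⟩ | ⟨k, r⟩
  · simp only [A, P, tgt, gt, proj, Bool.false_eq_true, if_false]
    rw [succ_coe]
  · simp only [A, P, tgt, gt, proj, if_true]
    rw [succ_coe]
  · simp [A, tgt, P]

theorem fin5 (i : Fin 5) : (0 : ℝ) ≤ ((i : ℕ) : ℝ) ∧ ((i : ℕ) : ℝ) ≤ 4 := by
  refine ⟨Nat.cast_nonneg _, ?_⟩
  exact_mod_cast (show (i : ℕ) ≤ 4 by omega)

theorem chainP (n : ℕ) (k : Fin n) :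
    0 < (((k : ℕ) : ℝ) + 1) * hh n ∧ (((k : ℕ) : ℝ) + 1) * hh n < 1 := by
  have h0 := hh_pos n
  have h1 := hh_mul n
  have hk : ((k : ℕ) : ℝ) + 1 ≤ n := by exact_mod_cast k.2
  constructor
  · positivity
  · nlinarith

theorem chainA (n : ℕ) (k : Fin n) (ρ t : ℝ) (hρ : -1 ≤ ρ) (hρ' : ρ ≤ 1) (h0 : 0 < t)
    (h1 : t < 1) :
    0 < (((k : ℕ) : ℝ) + t) * hh n + ρ * (t * (1 - t)) * hh n / 2 ∧
    (((k : ℕ) : ℝ) + t) * hh n + ρ * (t * (1 - t)) * hh n / 2 < 1 := by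
  have hp := hh_pos n
  have hc := (chainP n k).2
  have hk : (0 : ℝ) ≤ ((k : ℕ) : ℝ) := Nat.cast_nonneg _
  have hu : 0 < t * (1 - t) := mul_pos h0 (by linarith)
  have hu1 : t * (1 - t) < t := by nlinarith
  have hu2 : t * (1 - t) < 1 - t := by nlinarith
  have a1 : -(t * (1 - t)) ≤ ρ * (t * (1 - t)) := by nlinarith
  have a2 : ρ * (t * (1 - t)) ≤ t * (1 - t) := by nlinarith
  have e : (((k : ℕ) : ℝ) + t) * hh n + ρ * (t * (1 - t)) * hh n / 2 =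
      (((k : ℕ) : ℝ) + t + ρ * (t * (1 - t)) / 2) * hh n := by ring
  rw [e]
  constructor
  · apply mul_pos _ hp
    linarith
  · refine lt_of_le_of_lt (mul_le_mul_of_nonneg_right ?_ hp.le) hc
    linarith

theorem fin3 (r : Fin 3) : (-1 : ℝ) ≤ ((r : ℕ) : ℝ) - 1 ∧ ((r : ℕ) : ℝ) - 1 ≤ 1 := by
  have h1 : (0 : ℝ) ≤ ((r : ℕ) : ℝ) := Nat.cast_nonneg _
  have h2 : ((r : ℕ) : ℝ) ≤ 2 := by exact_mod_cast (show (r : ℕ) ≤ 2 by omega)
  constructor <;> linarith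

theorem chainA' (n : ℕ) (k : Fin n) (r : Fin 3) (t : ℝ) (h0 : 0 < t) (h1 : t < 1) :
    (0 < (A n (Sum.inr (k, r)) t).1 ∧ (A n (Sum.inr (k, r)) t).1 < 1) ∧
    (0 < (A n (Sum.inr (k, r)) t).2 ∧ (A n (Sum.inr (k, r)) t).2 < 1) := by
  obtain ⟨a, b⟩ := fin3 r
  refine ⟨chainA n k _ t a b h0 h1, ?_⟩
  have := chainA n k (-(((r : ℕ) : ℝ) - 1)) t (by linarith) (by linarith) h0 h1
  simp only [A]
  constructor <;> linarith [this.1, this.2]

theorem P_mem (n : ℕ) (x : VV n) : (P n x).1 ∈ Ico (0 : ℝ) 5 ∧ (P n x).2 ∈ Ico (0 : ℝ) 5 := by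
  rcases x with ⟨i, j⟩ | k
  · have := fin5 i
    have := fin5 j
    simp only [P, mem_Ico]
    refine ⟨⟨?_, ?_⟩, ?_, ?_⟩ <;> linarith [(fin5 i).1, (fin5 i).2, (fin5 j).1, (fin5 j).2]
  · have := chainP n k
    simp only [P, mem_Ico]
    refine ⟨⟨?_, ?_⟩, ?_, ?_⟩ <;> linarith [this.1, this.2]

theorem A_mem (n : ℕ) (e : EE n) (t : ℝ) (h0 : 0 < t) (h1 : t < 1) :
    (A n e t).1 ∈ Ico (0 : ℝ) 5 ∧ (A n e t).2 ∈ Ico (0 : ℝ) 5 := by
  rcases e with ⟨i, j, _ | _⟩ | ⟨k, r⟩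
  · simp only [A, mem_Ico]
    refine ⟨⟨?_, ?_⟩, ?_, ?_⟩ <;> linarith [(fin5 i).1, (fin5 i).2, (fin5 j).1, (fin5 j).2]
  · simp only [A, mem_Ico]
    refine ⟨⟨?_, ?_⟩, ?_, ?_⟩ <;> linarith [(fin5 i).1, (fin5 i).2, (fin5 j).1, (fin5 j).2]
  · obtain ⟨⟨a, b⟩, c, d⟩ := chainA' n k r t h0 h1
    simp only [mem_Ico]
    refine ⟨⟨?_, ?_⟩, ?_, ?_⟩ <;> linarith

theorem not_nat {i j : ℕ} {s : ℝ} (h0 : 0 < s) (h1 : s < 1) (h : (i : ℝ) + s = j) : False := by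
  have := (nat_frac (i := i) (j := j) h0.le h1 le_rfl zero_lt_one (by linarith)).2
  linarith

theorem not_nat' {j : ℕ} {s : ℝ} (h : 0 < s ∧ s < 1) (h' : s = j) : False :=
  not_nat (i := 0) (j := j) h.1 h.2 (by simpa using h')

theorem P_inj (n : ℕ) : Function.Injective (P n) := by
  rintro (⟨i, j⟩ | k) (⟨i', j'⟩ | k') h
  · simp only [P, Prod.mk.injEq, Nat.cast_inj] at h
    rw [Fin.ext h.1, Fin.ext h.2]
  · exact (not_nat' (chainP n k') (congrArg Prod.fst h).symm).elim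
  · exact (not_nat' (chainP n k) (congrArg Prod.fst h)).elim
  · have h1 : (((k : ℕ) : ℝ) + 1) * hh n = (((k' : ℕ) : ℝ) + 1) * hh n := congrArg Prod.fst h
    have h2 := mul_right_cancel₀ (hh_pos n).ne' h1
    have h3 : (k : ℕ) = k' := by exact_mod_cast add_right_cancel h2
    rw [Fin.ext h3]

theorem A_ne_P (n : ℕ) (e : EE n) (x : VV n) (s : ℝ) (h0 : 0 < s) (h1 : s < 1) :
    A n e s ≠ P n x := by
  intro h
  have hx := congrArg Prod.fst h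
  have hy := congrArg Prod.snd h
  rcases e with ⟨i, j, _ | _⟩ | ⟨k, r⟩ <;> rcases x with ⟨i', j'⟩ | k'
  · exact not_nat h0 h1 hy
  · exact not_nat' (chainP n k') hx.symm
  · exact not_nat h0 h1 hx
  · exact not_nat' (chainP n k') hy.symm
  · exact not_nat' (chainA' n k r s h0 h1).1 hx
  · simp only [A, P] at hx hy
    have h2 : (((k : ℕ) : ℝ) + s) * hh n = (((k' : ℕ) : ℝ) + 1) * hh n := by linarith
    have h3 := mul_right_cancel₀ (hh_pos n).ne' h2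
    exact not_nat (j := (k' : ℕ) + 1) h0 h1 (by push_cast; exact h3)

theorem A_inj (n : ℕ) (e e' : EE n) (s t : ℝ) (hs0 : 0 < s) (hs1 : s < 1) (ht0 : 0 < t)
    (ht1 : t < 1) (h : A n e s = A n e' t) : e = e' ∧ s = t := by
  have hx := congrArg Prod.fst h
  have hy := congrArg Prod.snd h
  rcases e with ⟨i, j, _ | _⟩ | ⟨k, r⟩ <;> rcases e' with ⟨i', j', _ | _⟩ | ⟨k', r'⟩
  · obtain ⟨a, b⟩ := nat_frac hs0.le hs1 ht0.le ht1 hy
    have c : (i : ℕ) = i' := by simpa [A] using hx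
    rw [Fin.ext a, Fin.ext c]
    exact ⟨rfl, b⟩
  · exact (not_nat hs0 hs1 hy).elim
  · exact (not_nat' (chainA' n k' r' t ht0 ht1).1 hx.symm).elim
  · exact (not_nat hs0 hs1 hx).elim
  · obtain ⟨a, b⟩ := nat_frac hs0.le hs1 ht0.le ht1 hx
    have c : (j : ℕ) = j' := by simpa [A] using hy
    rw [Fin.ext a, Fin.ext c]
    exact ⟨rfl, b⟩
  · exact (not_nat' (chainA' n k' r' t ht0 ht1).2 hy.symm).elim
  · exact (not_nat' (chainA' n k r s hs0 hs1).1 hx).elim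
  · exact (not_nat' (chainA' n k r s hs0 hs1).2 hy).elim
  · simp only [A] at hx hy
    have hp := hh_pos n
    have h2 : (((k : ℕ) : ℝ) + s) * hh n = (((k' : ℕ) : ℝ) + t) * hh n := by linarith
    obtain ⟨a, b⟩ := nat_frac hs0.le hs1 ht0.le ht1 (mul_right_cancel₀ hp.ne' h2)
    subst b
    have h3 : (((r : ℕ) : ℝ) - 1) * (s * (1 - s)) * hh n =
        (((r' : ℕ) : ℝ) - 1) * (s * (1 - s)) * hh n := by linarith
    have hu : 0 < s * (1 - s) := mul_pos hs0 (by linarith)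
    have h4 := mul_right_cancel₀ hu.ne' (mul_right_cancel₀ hp.ne' h3)
    have h5 : (r : ℕ) = r' := by exact_mod_cast sub_left_injective h4
    rw [Fin.ext a, Fin.ext h5]
    exact ⟨rfl, rfl⟩

noncomputable def drawing (n : ℕ) : Drawing (src n) (tgt n) Torus where
  pt x := proj (P n x)
  arc e := ⟨⟨fun t => proj (A n e t), proj_cont.comp ((A_cont n e).comp continuous_subtype_val)⟩,
    A_zero n e, A_one n e⟩
  pt_inj x y h := P_inj n (proj_inj (P_mem n x) (P_mem n y) h)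
  arc_inj e e' s t a b c d h := by
    have := A_inj n e e' s t a b c d (proj_inj (A_mem n e s a b) (A_mem n e' t c d) h)
    exact ⟨this.1, Subtype.ext this.2⟩
  arc_pt e x s a b h := A_ne_P n e x s a b (proj_inj (A_mem n e s a b) (P_mem n x) h)

theorem split5 (y : AddCircle (5 : ℝ)) : ∃ (j : Fin 5) (t : unitInterval),
    ((((j : ℕ) : ℝ) + (t : ℝ) : ℝ) : AddCircle (5 : ℝ)) = y := by
  obtain ⟨b, ⟨hb0, hb5⟩, rfl⟩ := AddCircle.eq_coe_Ico y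
  have h1 := Nat.floor_le hb0
  have h2 := Nat.lt_floor_add_one b
  have h3 : ⌊b⌋₊ < 5 := (Nat.floor_lt hb0).2 (by exact_mod_cast hb5)
  refine ⟨⟨⌊b⌋₊, h3⟩, ⟨b - ⌊b⌋₊, by linarith, by linarith⟩, ?_⟩
  simp

theorem five_inj : Function.Injective
    (fun r : Fin 5 => ((((r : ℕ) : ℝ) : ℝ) : AddCircle (5 : ℝ))) := by
  intro r r' h
  have := (AddCircle.coe_eq_coe_iff_of_mem_Ico (a := 0) (p := (5 : ℝ))
    ⟨(fin5 r).1, by linarith [(fin5 r).2]⟩ ⟨(fin5 r').1, by linarith [(fin5 r').2]⟩).1 h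
  exact Fin.ext (by exact_mod_cast this)

theorem five_le {S : Set Torus} (f : Fin 5 → Torus) (hf : Function.Injective f)
    (hS : ∀ r, f r ∈ S) : ((5 : ℕ) : ℕ∞) ≤ S.encard := by
  have h1 := hf.encard_range.trans (encard_le_encard (range_subset_iff.2 hS))
  simpa using h1

theorem rep (n : ℕ) : (drawing n).RepAtLeast 5 := by
  intro x γ _ hγ
  rcases loop_cases x γ hγ with h | h
  · choose t ht using fun r : Fin 5 => h ((((r : ℕ) : ℝ) : ℝ) : AddCircle (5 : ℝ))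
    refine five_le (fun r => γ (t r)) (fun r r' e => five_inj ?_) (fun r => ⟨⟨_, rfl⟩, ?_⟩)
    · exact (ht r).symm.trans ((congrArg Prod.fst e).trans (ht r'))
    · obtain ⟨j, s, hs⟩ := split5 (γ (t r)).2
      refine Or.inr (mem_iUnion.2 ⟨Sum.inl (r, j, false), s, ?_⟩)
      exact Prod.ext (ht r).symm hs
  · choose t ht using fun r : Fin 5 => h ((((r : ℕ) : ℝ) : ℝ) : AddCircle (5 : ℝ))
    refine five_le (fun r => γ (t r)) (fun r r' e => five_inj ?_) (fun r => ⟨⟨_, rfl⟩, ?_⟩)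
    · exact (ht r).symm.trans ((congrArg Prod.snd e).trans (ht r'))
    · obtain ⟨j, s, hs⟩ := split5 (γ (t r)).1
      refine Or.inr (mem_iUnion.2 ⟨Sum.inl (j, r, true), s, ?_⟩)
      exact Prod.ext hs (ht r).symm

end Pool.Agent.H.MP_6bdc24_co
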